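import Pool.Agent.H27.OP.Wt

set_option autoImplicit false
set_option linter.unusedSectionVars false

/-!
# MP_85ff8f_ag, part (T): nilpotency of `X x ∂_o` on the graded pieces
-/

open MvPolynomial

namespace Pool.Agent.H30.OP

open Pool.Agent.H27.OP

variable {σ k : Type*} [Fintype σ] [Field k] {F : Type*} [AddCommGroup F] [Module k F] {d : ℕ}
variable {S : Fk σ k (Module.End k F) d} (A : Gr S)

include A in
/-- a graded piece is spanned by weight vectors -/
lemma wt_span' [CharZero k] {a m : ℕ} {κ : F} (h : κ ∈ A.G a m) :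
    κ ∈ Submodule.span k {v | v ∈ A.G a m ∧
      ∃ w : σ → ℕ, ∀ x, S.D (X x) x v = (w x : k) • v} := by
  have h1 := jeig (fun x : σ => S.D (X x) x) (Finset.univ : Finset σ).toList (A.G a m)
    (fun x _ w hw => D_mem A hw (isHomogeneous_X _ _) x)
    (fun x _ w hw => Dxx_LF A x hw) (fun x _ y _ => D_comm_diag x y) h
  refine (Submodule.span_mono ?_) h1
  rintro v ⟨hv, hv'⟩
  choose w hw using fun x : σ => hv' x (by simp)
  exact ⟨hv, w, hw⟩

lemma D_zero' (y : σ) : S.D 0 y = 0 := by
  have h := S.D_smul 0 0 y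
  rwa [zero_smul, zero_smul] at h

/-- `D_oo D_xo = D_xo D_oo - D_xo` -/
lemma D_oo_xo {o x : σ} (hx : x ≠ o) (ω : F) :
    S.D (X o) o (S.D (X x) o ω) = S.D (X x) o (S.D (X o) o ω) - S.D (X x) o ω := by
  have h := congrArg (fun f : Module.End k F => f ω)
    (S.D_D (isHomogeneous_X k o) (isHomogeneous_X k x) o o)
  simp only [Module.End.mul_apply, LinearMap.sub_apply, LinearMap.add_apply] at h
  rw [pderiv_X_of_ne hx, pderiv_X_self, mul_zero, mul_one, D_zero', LinearMap.zero_apply,
    add_zero] at h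
  exact h

include A in
/-- no negative weights -/
lemma no_neg [CharZero k] {a m : ℕ} {v : F} (h : v ∈ A.G a m) (o : σ) {j : ℕ}
    (hv : S.D (X o) o v = (-(j + 1 : ℕ) : k) • v) : v = 0 := by
  obtain ⟨M, hM⟩ := Dxx_LF A o h
  rw [dp_eig _ hv] at hM
  rcases smul_eq_zero.mp hM with h1 | h1
  · rw [Finset.prod_eq_zero_iff] at h1
    obtain ⟨i, -, hi⟩ := h1
    have h2 : ((j + 1 + i : ℕ) : k) = 0 := by
      push_cast
      push_cast at hi
      linear_combination -hi
    rw [Nat.cast_eq_zero] at h2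
    omega
  · exact h1

include A in
/-- `X x ∂_o` is nilpotent on every graded piece -/
theorem nil_D [CharZero k] {o x : σ} (hx : x ≠ o) (p m : ℕ) :
    ∃ N : ℕ, ∀ ω ∈ A.G p m, (S.D (X x) o ^ N) ω = 0 := by
  refine ⟨m + d * p + 1, fun ω hω => ?_⟩
  have h1 := wt_span' A hω
  have h2 : {v | v ∈ A.G p m ∧ ∃ w : σ → ℕ, ∀ x, S.D (X x) x v = (w x : k) • v} ⊆
      (LinearMap.ker (S.D (X x) o ^ (m + d * p + 1)) : Set F) := by
    rintro v ⟨hv, w, hw⟩
    show (S.D (X x) o ^ (m + d * p + 1)) v = 0
    by_cases hv0 : v = 0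
    · rw [hv0, map_zero]
    have hsum := wt_sum A hv hv0 hw
    have hwo : w o ≤ m + d * p := by
      rw [← hsum]
      exact Finset.single_le_sum (f := w) (fun _ _ => Nat.zero_le _) (Finset.mem_univ o)
    have hmem : ∀ j : ℕ, (S.D (X x) o ^ j) v ∈ A.G p m := by
      intro j
      induction j with
      | zero => simpa using hv
      | succ j ih =>
        rw [pow_succ', Module.End.mul_apply]
        exact D_mem A ih (isHomogeneous_X _ _) o
    have heig : ∀ j : ℕ, S.D (X o) o ((S.D (X x) o ^ j) v) =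
        ((w o : k) - j) • (S.D (X x) o ^ j) v := by
      intro j
      induction j with
      | zero => simpa using hw o
      | succ j ih =>
        rw [pow_succ', Module.End.mul_apply, D_oo_xo hx, ih, map_smul, Nat.cast_add, Nat.cast_one,
          ← sub_sub, sub_smul _ (1 : k), one_smul]
    have h3 : (S.D (X x) o ^ (w o + 1)) v = 0 := by
      refine no_neg A (hmem _) o (j := 0) ?_
      rw [heig]
      congr 1
      push_cast
      ring
    obtain ⟨r, hr⟩ : ∃ r, m + d * p + 1 = r + (w o + 1) := ⟨m + d * p - w o, by omega⟩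
    rw [hr, pow_add, Module.End.mul_apply, h3, map_zero]
  exact (Submodule.span_le.mpr h2) h1

end Pool.Agent.H30.OP
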