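import Mathlib

/-!
# MP_85ff8f_ag, helper30: the numerical part of the proof of the Ottaviani-Paoletti statement

State: `a` letters of degree `d`, `b` letters of degree `d - 1`, twist `t`, bound `R` of the first row.
`T = a d + b (d - 1) + t` is the size of the shape, `y = a + b - t`.
`Ch d a b t R` says that a chain of row extractions exists that ends in a shape with at most two rows.
-/

namespace Pool.Agent.H30.OP

/-- chains of row extractions -/
inductive Ch (d : ℕ) : ℕ → ℕ → ℤ → ℤ → Prop
  | stop (a b : ℕ) (t R : ℤ) (hR : 0 ≤ R) (hy : 2 ≤ (a : ℤ) + b - t)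
      (hT : (a : ℤ) * d + b * ((d : ℤ) - 1) + t ≤ 2 * R) : Ch d a b t R
  | one (a b : ℕ) (t R : ℤ) (u v : ℕ) (hr : 2 ≤ u + v) (hu : u ≤ a) (hv : v ≤ b)
      (hT : (a : ℤ) * d + b * ((d : ℤ) - 1) + t ≤ ((u : ℤ) + v + 1) * R)
      (h : Ch d (a - u) (b - v) (t - 1) (R - 1)) : Ch d a b t R
  | two (a b : ℕ) (t R : ℤ) (u v : ℕ) (hr : 3 ≤ u + v) (hu : u ≤ a) (hv : v ≤ b)
      (hT : (a : ℤ) * d + b * ((d : ℤ) - 1) + t ≤ ((u : ℤ) + v) * R)
      (h : Ch d (a - u) (b - v) t (R - 1)) : Ch d a b t R

theorem Ch.nonneg {d a b : ℕ} {t R : ℤ} (h : Ch d a b t R) : 0 ≤ R := by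
  induction h with
  | stop a b t R hR hy hT => exact hR
  | one a b t R u v hr hu hv hT h ih => linarith
  | two a b t R u v hr hu hv hT h ih => linarith

theorem Ch.two_le {d a b : ℕ} {t R : ℤ} (h : Ch d a b t R) : 2 ≤ (a : ℤ) + b - t := by
  induction h with
  | stop a b t R hR hy hT => exact hy
  | one a b t R u v hr hu hv hT h ih => omega
  | two a b t R u v hr hu hv hT h ih => omega

/-- the parameter four: stop at the first block with at most four rows -/
theorem Ch.four {d a b : ℕ} {t R : ℤ} (h : Ch d a b t R) :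
    ∃ l Y : ℤ, 0 ≤ l ∧ 2 ≤ Y ∧ Y + 3 * l ≤ (a : ℤ) + b - t ∧
      ((d : ℤ) - 1) * Y + d * (t - l) ≤ 4 * (R - l) := by
  induction h with
  | stop a b t R hR hy hT =>
      refine ⟨0, (a : ℤ) + b - t, le_refl _, hy, by linarith, ?_⟩
      have ha : (0 : ℤ) ≤ a := Int.natCast_nonneg a
      nlinarith
  | one a b t R u v hr hu hv hT h ih =>
      have hR : 0 ≤ R - 1 := h.nonneg
      have hy := h.two_le
      by_cases h4 : u + v + 1 ≤ 4
      · refine ⟨0, (a : ℤ) + b - t, le_refl _, by omega, by linarith, ?_⟩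
        have ha : (0 : ℤ) ≤ a := Int.natCast_nonneg a
        have h5 : ((u : ℤ) + v + 1) * R ≤ 4 * R := by
          apply mul_le_mul_of_nonneg_right _ (by linarith)
          exact_mod_cast h4
        nlinarith
      · obtain ⟨l, Y, hl, hY, h1, h2⟩ := ih
        refine ⟨l + 1, Y, by linarith, hY, by omega, ?_⟩
        linarith
  | two a b t R u v hr hu hv hT h ih =>
      have hR : 0 ≤ R - 1 := h.nonneg
      have hy := h.two_le
      by_cases h4 : u + v ≤ 4
      · refine ⟨0, (a : ℤ) + b - t, le_refl _, by omega, by linarith, ?_⟩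
        have ha : (0 : ℤ) ≤ a := Int.natCast_nonneg a
        have h5 : ((u : ℤ) + v) * R ≤ 4 * R := by
          apply mul_le_mul_of_nonneg_right _ (by linarith)
          exact_mod_cast h4
        nlinarith
      · obtain ⟨l, Y, hl, hY, h1, h2⟩ := ih
        refine ⟨l + 1, Y, by linarith, hY, by omega, ?_⟩
        have hd : (0 : ℤ) ≤ d := Int.natCast_nonneg d
        linarith

/-- large degrees -/
theorem no_large (d s i j : ℕ) (hd : 16 ≤ d) (hs : 2 ≤ s) (hp : s + i + j = 3 * d - 3) :
    ¬ Ch d (s + 1) i d ((i : ℤ) + 2 * j) := by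
  intro h
  obtain ⟨l, Y, hl, hY, h1, h2⟩ := h.four
  have hp' : (s : ℤ) + i + j = 3 * d - 3 := by omega
  push_cast at h1
  have hd' : (16 : ℤ) ≤ d := by exact_mod_cast hd
  have hs' : (2 : ℤ) ≤ s := by exact_mod_cast hs
  have hj' : (0 : ℤ) ≤ j := Int.natCast_nonneg j
  have hi' : (0 : ℤ) ≤ i := Int.natCast_nonneg i
  -- y = s + 1 + i - d
  obtain ⟨y, hy⟩ : ∃ y : ℤ, y = s + 1 + i - d := ⟨_, rfl⟩
  have hR : (i : ℤ) + 2 * j = 5 * d - 5 - y - s := by linarith
  have hy2 : y ≤ 2 * d - 2 := by linarith
  have h3 : Y + 3 * l ≤ y := by linarith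
  rw [hR] at h2
  have h4 : ((d : ℤ) - 1) * Y + d * (d - l) ≤ 4 * (5 * d - 7 - y - l) := by linarith
  -- (d-1)Y + d^2 - 20d + 28 + 4y <= (d-4) l, 3 l <= y - Y
  have h5 : 3 * (((d : ℤ) - 1) * Y + d * d - 20 * d + 28 + 4 * y) ≤ (d - 4) * (y - Y) := by
    have h6 : ((d : ℤ) - 4) * (3 * l) ≤ (d - 4) * (y - Y) :=
      mul_le_mul_of_nonneg_left (by linarith) (by linarith)
    nlinarith
  have h7 : ((d : ℤ) - 16) * y ≤ (d - 16) * (2 * d - 2) :=
    mul_le_mul_of_nonneg_left hy2 (by linarith)
  have h8 : (4 * (d : ℤ) - 7) * 2 ≤ (4 * d - 7) * Y :=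
    mul_le_mul_of_nonneg_left hY (by linarith)
  nlinarith

/-- relaxed search on `y`, `t`, `R`, `T`; `true` means that a chain is not excluded -/
def chk (d : ℤ) : ℕ → ℤ → ℤ → ℤ → ℤ → Bool
  | 0, _, _, _, _ => true
  | n + 1, y, t, R, T =>
    decide (2 ≤ y) && (decide (T ≤ 2 * R) ||
      (List.range (y.toNat + 1)).any fun r =>
        decide (3 ≤ r) && (decide (T ≤ r * R) &&
          (chk d n (y - r + 2) (t - 1) (R - 1)
              (max (T - (r - 1) * d - 1) ((d - 1) * (y - r + 2) + d * (t - 1))) ||
            chk d n (y - r) t (R - 1) (max (T - r * d) ((d - 1) * (y - r) + d * t)))))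

theorem chk_sound {d a b : ℕ} {t R : ℤ} (h : Ch d a b t R) :
    ∀ (n : ℕ) (y T S : ℤ), y = (a : ℤ) + b - t → T ≤ (a : ℤ) * d + b * ((d : ℤ) - 1) + t →
      R ≤ S → chk d n y t S T = true := by
  induction h with
  | stop a b t R hR hy hT =>
      intro n y T S hy' hT' hS
      cases n with
      | zero => rfl
      | succ n =>
          have h1 : 2 ≤ y := by linarith
          have h2 : T ≤ 2 * S := by linarith
          simp [chk, h1, h2]
  | one a b t R u v hr hu hv hT h ih =>
      intro n y T S hy' hT' hS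
      cases n with
      | zero => rfl
      | succ n =>
          have h0 := h.two_le
          have h1 : 2 ≤ y := by omega
          have h3 : chk d n (y - ((u + v + 1 : ℕ) : ℤ) + 2) (t - 1) (S - 1)
              (max (T - (((u + v + 1 : ℕ) : ℤ) - 1) * d - 1)
                ((d - 1) * (y - ((u + v + 1 : ℕ) : ℤ) + 2) + d * (t - 1))) = true := by
            apply ih
            · omega
            · have ea : ((a - u : ℕ) : ℤ) = a - u := by omega
              have eb : ((b - v : ℕ) : ℤ) = b - v := by omega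
              rw [ea, eb]
              push_cast
              have ha : (0 : ℤ) ≤ (a : ℤ) - u := by omega
              have hv0 : (0 : ℤ) ≤ v := Int.natCast_nonneg v
              apply max_le
              · nlinarith
              · rw [hy']
                nlinarith
            · linarith
          have h4 : T ≤ ((u + v + 1 : ℕ) : ℤ) * S := by
            have h6 : ((u : ℤ) + v + 1) * R ≤ ((u : ℤ) + v + 1) * S :=
              mul_le_mul_of_nonneg_left hS (by omega)
            push_cast
            linarith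
          have h5 : (u + v + 1 : ℕ) ∈ List.range (y.toNat + 1) := by
            rw [List.mem_range]
            omega
          rw [chk, Bool.and_eq_true, Bool.or_eq_true]
          refine ⟨decide_eq_true h1, Or.inr ?_⟩
          rw [List.any_eq_true]
          refine ⟨u + v + 1, h5, ?_⟩
          rw [Bool.and_eq_true, Bool.and_eq_true, Bool.or_eq_true]
          exact ⟨decide_eq_true (by omega), decide_eq_true h4, Or.inl h3⟩
  | two a b t R u v hr hu hv hT h ih =>
      intro n y T S hy' hT' hS
      cases n with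
      | zero => rfl
      | succ n =>
          have h0 := h.two_le
          have h1 : 2 ≤ y := by omega
          have h3 : chk d n (y - ((u + v : ℕ) : ℤ)) t (S - 1)
              (max (T - ((u + v : ℕ) : ℤ) * d)
                ((d - 1) * (y - ((u + v : ℕ) : ℤ)) + d * t)) = true := by
            apply ih
            · omega
            · have ea : ((a - u : ℕ) : ℤ) = a - u := by omega
              have eb : ((b - v : ℕ) : ℤ) = b - v := by omega
              rw [ea, eb]
              push_cast
              have ha : (0 : ℤ) ≤ (a : ℤ) - u := by omega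
              have hv0 : (0 : ℤ) ≤ v := Int.natCast_nonneg v
              apply max_le
              · nlinarith
              · rw [hy']
                nlinarith
            · linarith
          have h4 : T ≤ ((u + v : ℕ) : ℤ) * S := by
            have h6 : ((u : ℤ) + v) * R ≤ ((u : ℤ) + v) * S :=
              mul_le_mul_of_nonneg_left hS (by omega)
            push_cast
            linarith
          have h5 : (u + v : ℕ) ∈ List.range (y.toNat + 1) := by
            rw [List.mem_range]
            omega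
          rw [chk, Bool.and_eq_true, Bool.or_eq_true]
          refine ⟨decide_eq_true h1, Or.inr ?_⟩
          rw [List.any_eq_true]
          refine ⟨u + v, h5, ?_⟩
          rw [Bool.and_eq_true, Bool.and_eq_true, Bool.or_eq_true]
          exact ⟨decide_eq_true (by omega), decide_eq_true h4, Or.inr h3⟩

set_option maxRecDepth 100000 in
theorem chk_small : ∀ d ∈ List.range 16, ∀ y ∈ List.range (2 * d - 1),
    chk d 40 y d (5 * d - 7 - y) (d * d + (d - 1) * y + 3) = false ∨ d < 2 ∨ y < 2 := by
  decide +kernel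

/-- small degrees -/
theorem no_small (d s i j : ℕ) (h2 : 2 ≤ d) (hd : d < 16) (hs : 2 ≤ s)
    (hp : s + i + j = 3 * d - 3) : ¬ Ch d (s + 1) i d ((i : ℤ) + 2 * j) := by
  intro h
  have h0 := h.two_le
  push_cast at h0
  obtain ⟨y, hy⟩ : ∃ y : ℕ, y + d = s + 1 + i := ⟨s + 1 + i - d, by omega⟩
  have hy2 : 2 ≤ y := by omega
  have hy3 : y < 2 * d - 1 := by omega
  have h1 := chk_small d (List.mem_range.2 hd) y (List.mem_range.2 hy3)
  have h3 := chk_sound h 40 (y : ℤ) ((d : ℤ) * d + (d - 1) * y + 3) (5 * d - 7 - y)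
    (by push_cast; omega) (by
      have e1 : (i : ℤ) = y + d - s - 1 := by omega
      have hs' : (2 : ℤ) ≤ s := by exact_mod_cast hs
      rw [e1]
      push_cast
      nlinarith) (by omega)
  rcases h1 with h1 | h1 | h1
  · rw [h1] at h3
    exact absurd h3 (by decide)
  · omega
  · omega

/-- **the numerical statement**: no chain starts at `(s + 1, i, d)` with first row at most `i + 2 j`,
if `s + i + j = 3 d - 3`, `2 ≤ s` and `2 ≤ d`. -/
theorem no_chain (d s i j : ℕ) (h2 : 2 ≤ d) (hs : 2 ≤ s) (hp : s + i + j = 3 * d - 3) :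
    ¬ Ch d (s + 1) i d ((i : ℤ) + 2 * j) := by
  rcases Nat.lt_or_ge d 16 with h | h
  · exact no_small d s i j h2 h hs hp
  · exact no_large d s i j h hs hp

/-- the same with `s + i + j ≤ 3 d - 3` -/
theorem no_chain' (d s i j : ℕ) (h2 : 2 ≤ d) (hs : 2 ≤ s) (hp : s + i + j ≤ 3 * d - 3) :
    ¬ Ch d (s + 1) i d ((i : ℤ) + 2 * j) := by
  intro h
  have key : ∀ {a b : ℕ} {t R : ℤ}, Ch d a b t R → ∀ S : ℤ, R ≤ S → Ch d a b t S := by
    intro a b t R h
    induction h with
    | stop a b t R hR hy hT =>
        intro S hS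
        exact Ch.stop a b t S (by linarith) hy (by linarith)
    | one a b t R u v hr hu hv hT h ih =>
        intro S hS
        refine Ch.one a b t S u v hr hu hv ?_ (ih (S - 1) (by linarith))
        have h6 : ((u : ℤ) + v + 1) * R ≤ ((u : ℤ) + v + 1) * S :=
          mul_le_mul_of_nonneg_left hS (by omega)
        linarith
    | two a b t R u v hr hu hv hT h ih =>
        intro S hS
        refine Ch.two a b t S u v hr hu hv ?_ (ih (S - 1) (by linarith))
        have h6 : ((u : ℤ) + v) * R ≤ ((u : ℤ) + v) * S :=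
          mul_le_mul_of_nonneg_left hS (by omega)
        linarith
  have h3 := key h ((i : ℤ) + 2 * ((3 * d - 3 - s - i : ℕ) : ℤ)) (by omega)
  exact no_chain d s i (3 * d - 3 - s - i) h2 hs (by omega) h3

end Pool.Agent.H30.OP
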